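import Pool.Agent.helper91.SI.Spec5

set_option autoImplicit false

namespace Pool.Agent.helper91.SI

open Pool.Agent.helper20.IG (IsIndepDom IsISet iGraph)

theorem MIX_dom {V : Type} (G : SimpleGraph V) (K : Set V) (X Y M : Finset V)
    (hK : Clo G K) (hX : IsIndepDom G X) (hY : IsIndepDom G Y)
    (hM : ∀ z, z ∈ M ↔ (z ∈ K ∧ z ∈ X) ∨ (z ∉ K ∧ z ∈ Y)) : IsIndepDom G M := by
  refine ⟨?_, ?_⟩
  · intro u hu v hv huv
    have hk := hK u v huv
    rcases (hM u).1 hu with ⟨h1, h2⟩ | ⟨h1, h2⟩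
    · rcases (hM v).1 hv with ⟨h3, h4⟩ | ⟨h3, h4⟩
      · exact hX.1 u h2 v h4 huv
      · exact h3 (hk.1 h1)
    · rcases (hM v).1 hv with ⟨h3, h4⟩ | ⟨h3, h4⟩
      · exact h1 (hk.2 h3)
      · exact hY.1 u h2 v h4 huv
  · intro v hv
    by_cases hvK : v ∈ K
    · have hvX : v ∉ X := fun h => hv ((hM v).2 (Or.inl ⟨hvK, h⟩))
      obtain ⟨u, hu, huv⟩ := hX.2 v hvX
      exact ⟨u, (hM u).2 (Or.inl ⟨(hK u v huv).2 hvK, hu⟩), huv⟩
    · have hvY : v ∉ Y := fun h => hv ((hM v).2 (Or.inr ⟨hvK, h⟩))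
      obtain ⟨u, hu, huv⟩ := hY.2 v hvY
      exact ⟨u, (hM u).2 (Or.inr ⟨fun h => hvK ((hK u v huv).1 h), hu⟩), huv⟩

open Classical in
theorem MIX_card {V : Type} (K : Set V) (X Y M : Finset V)
    (hM : ∀ z, z ∈ M ↔ (z ∈ K ∧ z ∈ X) ∨ (z ∉ K ∧ z ∈ Y)) :
    M.card = (X.filter (fun z => z ∈ K)).card + (Y.filter (fun z => ¬ z ∈ K)).card := by
  have h := Finset.card_filter_add_card_filter_not (s := M) (fun z => z ∈ K)
  have h1 : M.filter (fun z => z ∈ K) = X.filter (fun z => z ∈ K) := by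
    ext z
    simp only [Finset.mem_filter, hM]
    tauto
  have h2 : M.filter (fun z => ¬ z ∈ K) = Y.filter (fun z => ¬ z ∈ K) := by
    ext z
    simp only [Finset.mem_filter, hM]
    tauto
  rw [h1, h2] at h
  exact h.symm

/-- Mixtures of i-sets. -/
theorem MIX : MIX_stmt := by
  classical
  intro V _ G K X Y M hK hX hY hM
  refine ⟨MIX_dom G K X Y M hK hX.1 hY.1 hM, ?_⟩
  have hM' : ∀ z, z ∈ Y.filter (fun z => z ∈ K) ∪ X.filter (fun z => ¬ z ∈ K) ↔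
      (z ∈ K ∧ z ∈ Y) ∨ (z ∉ K ∧ z ∈ X) := by
    intro z
    simp only [Finset.mem_union, Finset.mem_filter]
    tauto
  have hD' := MIX_dom G K Y X _ hK hY.1 hX.1 hM'
  have c1 := MIX_card K X Y M hM
  have c2 := MIX_card K Y X _ hM'
  have c3 := Finset.card_filter_add_card_filter_not (s := X) (fun z => z ∈ K)
  have c4 := Finset.card_filter_add_card_filter_not (s := Y) (fun z => z ∈ K)
  have e1 := hX.2 _ hY.1
  have e2 := hY.2 _ hX.1
  have e3 := hX.2 _ hD'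
  intro T hT
  have e4 := hX.2 T hT
  omega

end Pool.Agent.helper91.SI
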